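import Mathlib

set_option autoImplicit false

namespace Pool.Agent.Results.MP_6e33d6_co.Embed

open Finset

/-- the `k`-dimension -/
noncomputable def dim (k : ℕ) (α : Type) [PartialOrder α] : ℕ :=
  sInf {t | Nonempty (α ↪o (Fin t → Fin k))}

def Irr (k : ℕ) (α : Type) [PartialOrder α] : Prop := ∀ x : α, dim k {y // y ≠ x} < dim k α

lemma emb_card (K : ℕ) (α : Type) [Fintype α] [PartialOrder α] :
    Nonempty (α ↪o (Fin (Fintype.card α) → Fin (K + 2))) := by
  classical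
  refine ⟨OrderEmbedding.ofMapLEIff (fun x i => if (Fintype.equivFin α).symm i ≤ x then 1 else 0)
    fun a b => ⟨fun h => ?_, fun h i => ?_⟩⟩
  · have := h (Fintype.equivFin α a)
    by_contra e
    simp [e] at this
  · simp only
    split_ifs with h1 h2
    · exact le_rfl
    · exact absurd (h1.trans h) h2
    · exact Fin.zero_le _
    · exact le_rfl

def rk {t k : ℕ} (u : Fin t → Fin k) : ℕ := ∑ i, (u i).1

lemma rk_le {t k : ℕ} {u v : Fin t → Fin k} (h1 : u ≤ v) : rk u ≤ rk v :=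
  sum_le_sum fun j _ => h1 j

lemma rk_lt {t k : ℕ} {u v : Fin t → Fin k} (h1 : u ≤ v) (h2 : ¬ v ≤ u) : rk u < rk v := by
  obtain ⟨i, hi⟩ := not_forall.1 h2
  exact sum_lt_sum (fun j _ => h1 j) ⟨i, mem_univ _, not_le.1 hi⟩

def Emb (K : ℕ) (Q : Finset (Set ℕ)) (t : ℕ) : Prop :=
  ∃ g : Set ℕ → Fin t → Fin (K + 2), ∀ S ∈ Q, ∀ S' ∈ Q, g S ≤ g S' ↔ S ⊆ S'

variable {P : Type} [PartialOrder P] (e : P → ℕ)

def X (x : P) : Set ℕ := {u | ∃ y, y ≤ x ∧ u = 3 * e y}
def C (i : ℕ) : Set ℕ := {u | u < 3 * i + 1 ∨ u = 3 * i + 2}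

def Fr (n c : ℕ) (S : Set ℕ) : Prop :=
  (∃ x, S = X e x) ∨ (∃ t, t ≤ c ∧ (t % 3 ≠ 1 ∨ 3 * n ≤ t) ∧ S = Set.Iio t) ∨ ∃ i < n, S = C i

variable {e} {n K : ℕ} (h1 : ∀ x, e x < n) (h2 : ∀ x y, x ≤ y → e x ≤ e y)
  (h3 : Function.Injective e) (h4 : ∀ i < n, ∃ x, e x = i)

include h2 h4 in
lemma lower (c t : ℕ) (hc : 3 * n ≤ c) (Q : Finset (Set ℕ)) (hQ : ∀ S, Fr e n c S → S ∈ Q)
    (h : Emb K Q t) : c ≤ t * (K + 1) := by
  obtain ⟨g, hg⟩ := h
  have mA : ∀ s ≤ c, (s % 3 ≠ 1 ∨ 3 * n ≤ s) → Set.Iio s ∈ Q := fun s a b =>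
    hQ _ (Or.inr (Or.inl ⟨s, a, b, rfl⟩))
  have a1 : ∀ i ≤ n, 3 * i ≤ rk (g (Set.Iio (3 * i))) := by
    intro i
    induction i with
    | zero => simp
    | succ i ih =>
      intro hi
      obtain ⟨x, rfl⟩ := h4 i hi
      have ma := mA (3 * e x) (by omega) (by omega)
      have mb := mA (3 * e x + 2) (by omega) (by omega)
      have md := mA (3 * (e x + 1)) (by omega) (by omega)
      have mc : C (e x) ∈ Q := hQ _ (Or.inr (Or.inr ⟨_, hi, rfl⟩))
      have mx : X e x ∈ Q := hQ _ (Or.inl ⟨x, rfl⟩)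
      have b1 := rk_lt (le_sup_left : g (Set.Iio (3 * e x)) ≤ _ ⊔ g (X e x)) fun a =>
        lt_irrefl (3 * e x) ((hg _ mx _ ma).1 (le_sup_right.trans a) ⟨x, le_rfl, rfl⟩)
      have b2 : g (Set.Iio (3 * e x)) ⊔ g (X e x) ≤ g (C (e x)) :=
        sup_le ((hg _ ma _ mc).2 fun u (hu : u < _) => Or.inl (by omega))
          ((hg _ mx _ mc).2 fun u ⟨y, a, b⟩ => Or.inl (by have := h2 _ _ a; omega))
      have b3 : g (Set.Iio (3 * e x)) ⊔ g (X e x) ≤ g (Set.Iio (3 * e x + 2)) :=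
        sup_le ((hg _ ma _ mb).2 fun u (hu : u < _) => show u < _ by omega)
          ((hg _ mx _ mb).2 fun u ⟨y, a, b⟩ => show u < _ by have := h2 _ _ a; omega)
      have b4 := rk_lt b3 fun a => by
        have : 3 * e x + 1 < 3 * e x + 1 ∨ 3 * e x + 1 = 3 * e x + 2 :=
          (hg _ mb _ mc).1 (a.trans b2) (show 3 * e x + 1 < _ by omega)
        omega
      have b5 := rk_lt ((hg _ mb _ md).2 fun u (hu : u < _) => show u < _ by omega) fun a =>
        lt_irrefl (3 * e x + 2) ((hg _ md _ mb).1 a (show 3 * e x + 2 < _ by omega))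
      have := ih (by omega)
      omega
  have a2 : ∀ s, 3 * n ≤ s → s ≤ c → s ≤ rk (g (Set.Iio s)) := by
    intro s hs
    induction s, hs using Nat.le_induction with
    | base => exact fun _ => a1 n le_rfl
    | succ s hs ih =>
      intro hs'
      have ma := mA s (by omega) (by omega)
      have mb := mA (s + 1) (by omega) (by omega)
      have := rk_lt ((hg _ ma _ mb).2 fun u (hu : u < _) => show u < _ by omega) fun a =>
        lt_irrefl s ((hg _ mb _ ma).1 a (show s < _ by omega))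
      have := ih (by omega)
      omega
  exact (a2 c hc le_rfl).trans ((sum_le_card_nsmul _ _ (K + 1)
    fun i _ => Nat.le_of_lt_succ (g _ i).2).trans (by simp))

include h1 h2 h3 in
lemma upper (x : P) (T : ℕ) (hT : T + 1 = 3 * n) (Q : Finset (Set ℕ))
    (hQ : ∀ S ∈ Q, Fr e n (3 * n + T * K) S ∧ S ≠ X e x) : Emb K Q T := by
  classical
  have hx := h1 x
  let co : ℕ → ℕ := fun u => if u < 3 * e x then u else if u < 3 * n then u - 1 else (u - 3 * n) % T
  let F : Set ℕ → ℕ → Finset ℕ := fun S t =>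
    (range (3 * n + T * K)).filter fun u => u ∈ S ∧ u ≠ 3 * e x ∧ co u = t
  have hb : ∀ S t, (F S t).card < K + 2 := by
    intro S t
    refine Nat.lt_succ_of_le ((card_le_card_of_injOn (t := range (K + 1))
      (fun u => if u < 3 * n then 0 else (u - 3 * n) / T + 1) (fun u hu => ?_)
      fun u hu v hv a => ?_).trans (by simp))
    · simp only [F, coe_filter, mem_range, Set.mem_ofPred_eq, coe_range, Set.mem_Iio] at hu ⊢
      split_ifs
      · omega
      · exact Nat.succ_lt_succ (Nat.div_lt_of_lt_mul (by omega))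
    · simp only [F, co, coe_filter, mem_range, Set.mem_ofPred_eq] at hu hv a
      have b1 := Nat.div_add_mod (u - 3 * n) T
      have b2 := Nat.div_add_mod (v - 3 * n) T
      by_cases a1 : u < 3 * n <;> by_cases a2 : v < 3 * n <;> simp only [a1, a2, if_true, if_false]
        at a hu hv
      · split_ifs at hu hv <;> omega
      · exact absurd a.symm (Nat.succ_ne_zero _)
      · exact absurd a (Nat.succ_ne_zero _)
      · rw [if_neg (by omega)] at hu hv
        rw [Nat.succ_injective a, hu.2.2.2] at b1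
        rw [hv.2.2.2] at b2
        omega
  have F1 : ∀ S ∈ Q, ∀ v ∈ S, v < 3 * n + T * K ∧ (3 * n ≤ v → ∀ w < v, w ∈ S) ∧
      (v % 3 ≠ 0 → v / 3 * 3 ∈ S) := by
    intro S hS v hv
    rcases (hQ S hS).1 with ⟨y, rfl⟩ | ⟨t, a, b, rfl⟩ | ⟨i, a, rfl⟩
    · obtain ⟨z, -, rfl⟩ := hv
      have := h1 z
      exact ⟨by omega, by omega, by omega⟩
    · have hv : v < t := hv
      exact ⟨by omega, fun _ w hw => hw.trans hv, fun _ => show _ < t by omega⟩
    · have hv : _ ∨ _ := hv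
      exact ⟨by omega, by omega, fun _ => Or.inl (by omega)⟩
  have F2 : ∀ S ∈ Q, ∀ S' ∈ Q, 3 * e x ∈ S → 3 * e x ∉ S' → ∃ u ∈ S, u ∉ S' ∧ u ≠ 3 * e x := by
    intro S hS S' hS' a b
    have fr : (3 * e x + 1 ∈ S ∨ 3 * e x + 2 ∈ S) → ∃ u ∈ S, u ∉ S' ∧ u ≠ 3 * e x := by
      rintro (d | d) <;> refine ⟨_, d, fun d' => b ?_, by omega⟩ <;>
        convert (F1 _ hS' _ d').2.2 (by omega) using 1 <;> omega
    rcases (hQ S hS).1 with ⟨y, rfl⟩ | ⟨t, a1, a2, rfl⟩ | ⟨i, a1, rfl⟩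
    · obtain ⟨z, z1, z2⟩ := a
      obtain rfl : x = z := h3 (by omega)
      have ne : e y ≠ e x := fun d => (hQ _ hS).2 (by rw [h3 d])
      have := h2 _ _ z1
      refine ⟨3 * e y, ⟨y, le_rfl, rfl⟩, fun d => b ?_, by omega⟩
      rcases (hQ S' hS').1 with ⟨w, rfl⟩ | ⟨t, -, -, rfl⟩ | ⟨i, -, rfl⟩
      · obtain ⟨w', w1, w2⟩ := d
        obtain rfl : y = w' := h3 (by omega)
        exact ⟨x, z1.trans w1, rfl⟩
      · have d : _ < t := d
        exact show _ < t by omega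
      · have d : _ ∨ _ := d
        exact Or.inl (by omega)
    · have a : _ < t := a
      exact fr (Or.inl (show _ < t by omega))
    · have a : _ ∨ _ := a
      by_cases d : e x = i
      · exact fr (Or.inr (Or.inr (by omega)))
      · exact fr (Or.inl (Or.inl (by omega)))
  refine ⟨fun S t => ⟨(F S t).card, hb S t⟩, fun S hS S' hS' => ⟨fun h => ?_, fun h t => ?_⟩⟩
  · by_contra hn
    obtain ⟨u, u1, u2, u3⟩ : ∃ u ∈ S, u ∉ S' ∧ u ≠ 3 * e x := by
      obtain ⟨u, u1, u2⟩ := Set.not_subset.1 hn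
      by_cases d : u = 3 * e x
      · exact F2 S hS S' hS' (d ▸ u1) (d ▸ u2)
      · exact ⟨u, u1, u2, d⟩
    have hu : co u < T := by
      simp only [co]
      split_ifs
      · omega
      · omega
      · exact Nat.mod_lt _ (by omega)
    refine absurd (show (F S (co u)).card ≤ (F S' (co u)).card from h ⟨co u, hu⟩)
      (not_le.2 (card_lt_card ⟨fun v hv => ?_, fun d => ?_⟩))
    · simp only [F, mem_filter] at hv ⊢
      refine ⟨hv.1, ?_, hv.2.2⟩
      by_cases d1 : 3 * n ≤ v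
      · have := (F1 _ hS' _ hv.2.1).2.1 d1
        have d2 : v < u := by
          by_contra d3
          rcases (not_lt.1 d3).eq_or_lt with rfl | d4
          · exact u2 hv.2.1
          · exact u2 (this u d4)
        exact (F1 _ hS _ u1).2.1 (by omega) v d2
      · by_cases d2 : 3 * n ≤ u
        · exact (F1 _ hS _ u1).2.1 d2 v (by omega)
        · have d3 := hv.2.2.2
          have d4 := hv.2.2.1
          simp only [co] at d3
          obtain rfl : v = u := by split_ifs at d3 <;> omega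
          exact u1
    · have := @d u (by simp only [F, mem_filter, mem_range]; exact ⟨(F1 _ hS _ u1).1, u1, u3, trivial⟩)
      simp only [F, mem_filter] at this
      exact u2 this.2.1
  · refine show (F S t).card ≤ (F S' t).card from card_le_card fun v hv => ?_
    simp only [F, mem_filter] at hv ⊢
    exact ⟨hv.1, h hv.2.1, hv.2.2⟩

theorem result (k : ℕ) (hk : 2 ≤ k) (P : Type) [Fintype P] [PartialOrder P] :
    ∃ (Q : Type) (_ : Fintype Q) (_ : PartialOrder Q),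
      Irr k Q ∧ Nonempty (P ↪o Q) ∧ dim k P < dim k Q := by
  classical
  obtain ⟨K, rfl⟩ := Nat.exists_eq_add_of_le' hk
  obtain ⟨n, hn⟩ : ∃ n, n = Fintype.card P := ⟨_, rfl⟩
  obtain ⟨e, h1, h2, h3, h4⟩ : ∃ e : P → ℕ, (∀ x, e x < n) ∧ (∀ x y, x ≤ y → e x ≤ e y) ∧
      Function.Injective e ∧ ∀ i < n, ∃ x, e x = i := by
    let _ : Fintype (LinearExtension P) := inferInstanceAs (Fintype P)
    let m := monoEquivOfFin (LinearExtension P) hn.symm
    refine ⟨fun x => (m.symm (toLinearExtension x)).1, fun x => Fin.is_lt _,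
      fun x y h => m.symm.monotone (toLinearExtension.monotone h),
      fun x y h => m.symm.injective (Fin.ext h), fun i hi => ⟨m ⟨i, hi⟩, ?_⟩⟩
    exact congrArg Fin.val (m.symm_apply_apply ⟨i, hi⟩)
  obtain ⟨T, hT⟩ : ∃ T, T = 3 * n - 1 := ⟨_, rfl⟩
  obtain ⟨Q0, hQ0⟩ : ∃ Q0 : Finset (Set ℕ), ∀ S, S ∈ Q0 ↔ Fr e n (T * (K + 1) + 1) S := by
    refine ⟨univ.image (X e) ∪ (((range (T * (K + 1) + 2)).filter
      fun t => t % 3 ≠ 1 ∨ 3 * n ≤ t).image Set.Iio ∪ (range n).image C), fun S => ?_⟩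
    simp only [Fr, mem_union, mem_image, mem_univ, true_and, mem_filter, mem_range, eq_comm,
      Nat.lt_succ_iff, and_assoc]
  obtain ⟨Q, hQ, hm⟩ := exists_min_image (Q0.powerset.filter fun Q => ∀ t ≤ T, ¬ Emb K Q t) card
    ⟨Q0, mem_filter.2 ⟨mem_powerset_self _, fun t ht h => by
      have := lower h2 h4 _ t (by rw [mul_add]; omega) Q0 (fun S => (hQ0 S).2) h
      have := Nat.mul_le_mul_right (K + 1) ht
      omega⟩⟩
  simp only [mem_filter, mem_powerset] at hQ hm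
  have hd : T < dim (K + 2) Q := by
    obtain ⟨f⟩ := Nat.sInf_mem (s := {t | Nonempty (Q ↪o (Fin t → Fin (K + 2)))})
      ⟨_, emb_card K Q⟩
    by_contra a
    refine hQ.2 _ (not_lt.1 a) ⟨fun S => if h : S ∈ Q then f ⟨S, h⟩ else 0, fun S hS S' hS' => ?_⟩
    simp only [hS, hS', dif_pos]
    exact f.le_iff_le
  have hX : ∀ x, X e x ∈ Q := by
    intro x
    by_contra a
    have := h1 x
    refine hQ.2 T le_rfl (upper h1 h2 h3 x T (by omega) Q fun S hS => ⟨?_, fun d => a (d ▸ hS)⟩)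
    rw [show 3 * n + T * K = T * (K + 1) + 1 by rw [mul_add]; omega]
    exact (hQ0 S).1 (hQ.1 hS)
  refine ⟨Q, inferInstance, inferInstance, fun y => lt_of_le_of_lt ?_ hd,
    ⟨OrderEmbedding.ofMapLEIff (fun x => ⟨X e x, hX x⟩) fun a b => ⟨fun h => ?_, fun h => ?_⟩⟩,
    lt_of_le_of_lt ((Nat.sInf_le (emb_card K P)).trans (by omega)) hd⟩
  · by_contra a
    have := hm (Q.erase y) ⟨(erase_subset _ _).trans hQ.1, fun t ht ⟨g, hg⟩ => a
      ((Nat.sInf_le (s := {t | Nonempty ({z : Q // z ≠ y} ↪o (Fin t → Fin (K + 2)))})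
        ⟨OrderEmbedding.ofMapLEIff (fun z => g z.1.1) fun z z' => hg _
        (mem_erase.2 ⟨fun d => z.2 (Subtype.ext d), z.1.2⟩) _
        (mem_erase.2 ⟨fun d => z'.2 (Subtype.ext d), z'.1.2⟩)⟩).trans ht)⟩
    exact absurd (card_erase_lt_of_mem y.2) (not_lt.2 this)
  · obtain ⟨y, y1, y2⟩ := h (show 3 * e a ∈ X e a from ⟨a, le_rfl, rfl⟩)
    obtain rfl : a = y := h3 (by omega)
    exact y1
  · exact show X e a ⊆ X e b from fun u ⟨y, y1, y2⟩ => ⟨y, y1.trans h, y2⟩

end Pool.Agent.Results.MP_6e33d6_co.Embed
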